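import Pool.Agent.H18.Aip2

/-!
A finite template solved by AIP that receives no homomorphism from any `E (3 ^ p) × NAE`.
-/

namespace Pool.Agent.Results.MP_981e77_lc.Cex

open Finset Pool.Agent.H18.Aip

/-- there is a homomorphism between the two structures with ternary relations `S` and `T` -/
def Hom {X B : Type} (S : Set (Fin 3 → X)) (T : Set (Fin 3 → B)) : Prop :=
  ∃ f : X → B, ∀ t ∈ S, f ∘ t ∈ T

/-- the relation of 1-in-3 -/
def oneIn3 : Finset (Fin 3 → Fin 2) := {![1, 0, 0], ![0, 1, 0], ![0, 0, 1]}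

/-- the relation of NAE -/
def nae : Set (Fin 3 → Fin 2) := {t | t ≠ ![0, 0, 0] ∧ t ≠ ![1, 1, 1]}

/-- the relation of `E m` -/
def eRel (m : ℕ) : Set (Fin 3 → ZMod m) := {t | t 0 + t 1 + t 2 = 1}

/-- the relation of the product -/
def prodRel {X B : Type} (S : Set (Fin 3 → X)) (T : Set (Fin 3 → B)) : Set (Fin 3 → X × B) :=
  {t | (fun i => (t i).1) ∈ S ∧ (fun i => (t i).2) ∈ T}

/-- the affine integer relaxation for 1-in-3 accepts the instance `S` -/
def AIP {X : Type} (S : Set (Fin 3 → X)) : Prop :=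
  ∃ (l : X → Fin 2 → ℤ) (m : (Fin 3 → X) → (Fin 3 → Fin 2) → ℤ), (∀ x, ∑ a, l x a = 1) ∧
    ∀ t ∈ S, ∑ s ∈ oneIn3, m t s = 1 ∧ ∀ i a, l (t i) a = ∑ s ∈ oneIn3 with s i = a, m t s

/-- every finite instance accepted by AIP maps to `T` -/
def Solves {B : Type} (T : Set (Fin 3 → B)) : Prop :=
  ∀ (X : Type) [Fintype X] (S : Set (Fin 3 → X)), AIP S → Hom S T

/-- the colouring of the integers -/
def c (x : ℤ) : ZMod 27 × Col × Col := (x, col (4 * x - 1), col (4 * x - 2))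

theorem no_hom (p : ℕ) (φ : ℤ → Fin 2 → ZMod 27 × Col × Col) (per : ∀ x s, φ (x + 3 ^ p) s = φ x s)
    (H : ∀ x y z s, x + y + z = 1 → ∃ x' y' z', x' + y' + z' = 1 ∧ φ x 0 = c x' ∧ φ y 1 = c y' ∧
      φ z s = c z') : False := by
  have h1 : ∀ x y z s, x + y + z = 1 → (φ x 0).1 + (φ y 1).1 + (φ z s).1 = 1 := fun x y z s e => by
    obtain ⟨x', y', z', e', a, b, d⟩ := H x y z s e
    rw [a, b, d]
    simpa [c] using congrArg (Int.cast : ℤ → ZMod 27) e'
  have h2 : ∀ x, (φ x 1).1 = (φ x 0).1 := fun x => by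
    linear_combination h1 0 (1 - x) x 1 (by omega) - h1 0 (1 - x) x 0 (by omega)
  obtain ⟨μ, hμ⟩ : ∃ μ, μ = (φ 0 0).1 := ⟨_, rfl⟩
  have h3 : ∀ x, (φ (x + 1) 0).1 = (φ x 0).1 + (1 - 3 * μ) := fun x => by
    linear_combination h1 (x + 1) (-x) 0 0 (by omega) - h1 x (-x) 1 0 (by omega) +
      h1 0 0 1 0 (by omega) - h2 0 + 3 * hμ
  have h4 : ∀ x : ℤ, (φ x 0).1 = (1 - 3 * μ) * x + μ := fun x => by
    induction x using Int.induction_on with
    | zero => simp [hμ]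
    | succ n ih => rw [h3, ih]; push_cast; ring
    | pred n ih =>
      have := h3 (-n - 1)
      rw [sub_add_cancel, ih] at this
      push_cast at this ⊢
      linear_combination -this
  obtain ⟨l, hl⟩ : ∃ l : ℤ, 4 * (1 - 3 * μ) * l + 4 * μ - 1 = 0 := by
    have : ∀ μ : ZMod 27, ∃ l : ZMod 27, 4 * (1 - 3 * μ) * l + 4 * μ - 1 = 0 := by decide +kernel
    obtain ⟨l, hl⟩ := this μ
    exact ⟨l.cast, by simpa using hl⟩
  have un : ∀ μ u : ZMod 27, 9 * u ≠ 0 → 9 * (4 * (1 - 3 * μ) * u) ≠ 0 := by decide +kernel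
  have fin : ∀ u X : ℤ, ¬ 3 ∣ u → (X : ZMod 27) = 4 * (1 - 3 * μ) * u →
      col X = (0, 4 * (1 - 3 * μ) * u) := fun u X hu e => by
    have := col_eq 0 X ((unit_iff X).1 (e ▸ un μ u ((unit_iff u).2 hu)))
    simpa [e] using this
  refine no_P p ⟨fun w => (φ (l + w) 0).2.1, fun w => (φ (l + w) 1).2.1,
    fun w => (φ (1 - 2 * l + w) 0).2.2, 4 * (1 - 3 * μ), fun w => ?_, fun x y z e => ?_,
    fun u hu => ?_⟩
  · simp only [← add_assoc, per, and_self]
  · obtain ⟨x', y', z', e', a, b, d⟩ := H (l + x) (l + y) (1 - 2 * l + z) 0 (by omega)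
    simp only [a, b, d, c]
    exact r_col _ _ _ (by omega) (by omega) (by omega) (by omega)
  · obtain ⟨x', y', -, -, a, b, -⟩ := H (l + u) (l + u) (1 - 2 * (l + u)) 0 (by omega)
    obtain ⟨z', -, -, -, d, -⟩ := H (1 - 2 * l + u) (2 * l - u) 0 0 (by omega)
    have a1 := h4 (l + u)
    have b1 := (h2 _).trans a1
    have d1 := h4 (1 - 2 * l + u)
    rw [a] at a1
    rw [b] at b1
    rw [d] at d1
    simp only [a, b, d, c] at a1 b1 d1 ⊢
    push_cast at a1 b1 d1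
    refine ⟨fin u _ hu ?_, fin u _ hu ?_, fin u _ hu ?_⟩ <;> push_cast
    · linear_combination 4 * a1 + hl
    · linear_combination 4 * b1 + hl
    · linear_combination 4 * d1 - 2 * hl

theorem result : ∃ (B : Type) (_ : Fintype B) (T : Set (Fin 3 → B)),
    Hom (oneIn3 : Set (Fin 3 → Fin 2)) T ∧ Solves T ∧ ∀ p : ℕ, ¬ Hom (prodRel (eRel (3 ^ p)) nae) T := by
  refine ⟨ZMod 27 × Col × Col, inferInstance, {t | ∃ n : Fin 3 → ℤ, n 0 + n 1 + n 2 = 1 ∧ t = c ∘ n},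
    ⟨fun a => c (a : ℕ), fun t ht => ⟨fun i => (t i : ℕ), ?_, rfl⟩⟩,
    fun X _ S ⟨l, m, _, h⟩ => ⟨fun x => c (l x 1), fun t ht => ⟨fun i => l (t i) 1, ?_, rfl⟩⟩,
    fun p ⟨φ, h⟩ => no_hom p (fun x s => φ (x, s)) (fun x s => ?_) fun x y z s e => ?_⟩
  · have : ∀ t ∈ oneIn3, ((t 0 : ℕ) : ℤ) + (t 1 : ℕ) + (t 2 : ℕ) = 1 := by decide
    exact this t ht
  · obtain ⟨h1, h2⟩ := h t ht
    simp only [h2, sum_filter, ← sum_add_distrib, ← h1]
    refine sum_congr rfl fun s hs => ?_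
    simp only [oneIn3, mem_insert, mem_singleton] at hs
    rcases hs with rfl | rfl | rfl <;> simp
  · have : (3 : ZMod (3 ^ p)) ^ p = 0 := by exact_mod_cast ZMod.natCast_self (3 ^ p)
    simp [this]
  · obtain ⟨n, h1, h2⟩ := h ![(x, 0), (y, 1), (z, s)] ⟨by
      simpa [eRel] using congrArg (Int.cast : ℤ → ZMod (3 ^ p)) e, by
      constructor <;> intro k
      · simpa using congrFun k 1
      · simpa using congrFun k 0⟩
    exact ⟨n 0, n 1, n 2, h1, congrFun h2 0, congrFun h2 1, congrFun h2 2⟩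

end Pool.Agent.Results.MP_981e77_lc.Cex
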